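import Pool.Agent.Q26.IX.It

/-!
# Simultaneous representations of several corrected integers of ALL types `(a, 0)` with a common index

The representations `N = ^a p_x + (a prime)` of type `(a, 0)`. Let `N 1, ..., N s` be arbitrary integers. After the addition of
very few elements of arbitrary sets we determine, for ALL vectors `a 1, ..., a s` of non-negative integers at once, the number of the
common indices `x` in an arbitrary set `I` such that all `N i - ^{a i} p_x` are prime.
-/

set_option autoImplicit false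

namespace Pool.Agent.Results.MP_778b46_nt.AllTypesAfterCorrection

open Finset

/-- `pr x` is the `x`-th prime, `pr 1 = 2`. -/
noncomputable def pr (x : ℕ) : ℕ := Nat.nth Nat.Prime (x - 1)

/-- The `x`-th `a`-prime: the `(a + 1)`-fold iterate of `pr` at `x`. -/
noncomputable def iPrime (a x : ℕ) : ℕ := pr^[a + 1] x

open Classical in
/-- The `x ≥ 1` in `I` for which all the `x`-th `a i`-primes are at most `X`. -/
noncomputable def indices {s : ℕ} (X : ℕ) (I : Set ℕ) (a : Fin s → ℕ) : Finset ℕ :=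
  (Icc 1 X).filter fun x => x ∈ I ∧ ∀ i, iPrime (a i) x ≤ X

open Classical in
/-- The number of the `x` in `indices X I a` for which all `N i - ^{a i} p_x` are prime. -/
noncomputable def primes {s : ℕ} (X : ℕ) (I : Set ℕ) (a : Fin s → ℕ) (N : Fin s → ℤ) : ℕ :=
  ((indices X I a).filter fun x => ∀ i, ∃ q : ℕ, q.Prime ∧ (q : ℤ) = N i - iPrime (a i) x).card

/-- The integer `x` is positive and has no prime factor up to `z`. -/
def Rough (z : ℕ) (x : ℤ) : Prop := 1 ≤ x ∧ ∀ r : ℕ, r.Prime → r ≤ z → ¬ (r : ℤ) ∣ x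

open Classical in
/-- The number of the `x` in `indices X I a` for which all `N i - ^{a i} p_x` are positive without prime factor up to `z`. -/
noncomputable def rough {s : ℕ} (X : ℕ) (I : Set ℕ) (a : Fin s → ℕ) (z : ℕ) (N : Fin s → ℤ) : ℕ :=
  ((indices X I a).filter fun x => ∀ i, Rough z (N i - iPrime (a i) x)).card

/-- `V(z) = ∏_{r ≤ z} (1 - 1 / r)`, `r` prime -/
noncomputable def V (z : ℕ) : ℝ := ∏ r ∈ (Icc 1 z).filter Nat.Prime, (1 - 1 / (r : ℝ))

/-- The number of the `x` with `s` primes is `T = rough / (V(z) log X) ^ s` up to `ε T + X / log ^ A X`. -/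
def Formula {s : ℕ} (ε : ℝ) (A X z : ℕ) (I : Set ℕ) (a : Fin s → ℕ) (N : Fin s → ℤ) : Prop :=
  |(primes X I a N : ℝ) - rough X I a z N / (V z * Real.log X) ^ s| ≤
    ε * (rough X I a z N / (V z * Real.log X) ^ s) + X / Real.log X ^ A

/-- **All types `(a, 0)` and common indices, after a correction by very few elements of arbitrary sets.** Let `s ≥ 1`, `l ≥ 2`,
`P ≥ 1`, `R` and `A` be given. There is `C` such that for all `H`, `B` there is `B₀` such that for all `E` and `ε > 0` there is
`X₀` with the following property. Let `T 1, ..., T s` be ARBITRARY sets of integers, each of which contains an element of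
every interval `[x, l x]` with `x ≥ 1`. Let `X ≥ X₀`, `log ^ B₀ X ≤ z ≤ log ^ E X`, let `N 1, ..., N s` be ARBITRARY integers with
`|N i| ≤ B X`, and let `I` be an ARBITRARY set of indices. There are sets `S i` of at most `C (log log X) ^ 2` elements of
`T i`, all between `log ^ H X` and `X / log ^ H X`, whose sums are divisible by `P`, such that for ALL vectors `a 1, ..., a s`
of non-negative integers, ALL integers `N' 1, ..., N' s` with `|N' i - (N i + ∑_{x ∈ S i} x)| ≤ log ^ R X` satisfy the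
formula for the number of the `x` in `I` such that all `N' i - ^{a i} p_x` are prime (and all `^{a i} p_x` are at most `X`). -/
theorem result (s l P R A : ℕ) (hs : 1 ≤ s) (hl : 2 ≤ l) (hP : 1 ≤ P) : ∃ C : ℝ, ∀ H B : ℕ, ∃ B₀ : ℕ, ∀ (E : ℕ) (ε : ℝ), 0 < ε →
    ∃ X₀ : ℕ, ∀ T : Fin s → Set ℕ, (∀ i, ∀ x : ℕ, 1 ≤ x → ∃ a ∈ T i, x ≤ a ∧ a ≤ l * x) → ∀ X : ℕ, X₀ ≤ X →
    ∀ z : ℕ, Real.log X ^ B₀ ≤ z → (z : ℝ) ≤ Real.log X ^ E → ∀ N : Fin s → ℤ, (∀ i, |N i| ≤ (B : ℤ) * X) → ∀ I : Set ℕ,
    ∃ S : Fin s → Finset ℕ, (∀ i, ∀ x ∈ S i, x ∈ T i ∧ Real.log X ^ H ≤ x ∧ (x : ℝ) ≤ X / Real.log X ^ H) ∧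
      (∀ i, ((S i).card : ℝ) ≤ C * Real.log (Real.log X) ^ 2) ∧ (∀ i, P ∣ ∑ x ∈ S i, x) ∧
      ∀ (a : Fin s → ℕ) (N' : Fin s → ℤ),
        (∀ i, ((|N' i - (N i + ∑ x ∈ S i, (x : ℤ))| : ℤ) : ℝ) ≤ Real.log X ^ R) → Formula ε A X z I a N' := by
  classical
  obtain ⟨C, h0⟩ := Pool.Agent.Q26.IX.ix_las_fam s l P R A (2 * s) hs hl hP
  obtain ⟨X₁, ht⟩ := Pool.Agent.Q26.IX.types_card s
  refine ⟨C, fun H B => ?_⟩
  obtain ⟨B₀, h1⟩ := h0 H B
  refine ⟨B₀, fun E ε hε => ?_⟩
  obtain ⟨X₀, h2⟩ := h1 E ε hε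
  refine ⟨X₀ + X₁, fun T hT X hX z hz1 hz2 N hN I => ?_⟩
  obtain ⟨S, g1, g2, g3, g4⟩ := h2 T hT X (by omega) z hz1 hz2 N hN
    (Fintype.piFinset fun _ : Fin s => range (Nat.log 2 X + 1)) (ht X (by omega))
    (fun a => indices X I a) (fun _ => -1) (fun a i x => iPrime (a i) x) (fun _ => Or.inr rfl) (by
      intro a _ i x hx
      unfold indices at hx
      rw [mem_filter, mem_Icc] at hx
      exact ⟨Pool.Agent.Q26.IX.it_pos _ x hx.1.1, hx.2.2 i⟩) (by
      intro a _ i x hx y hy hxy
      have hx' : x ∈ indices X I a := hx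
      have hy' : y ∈ indices X I a := hy
      unfold indices at hx' hy'
      rw [mem_filter, mem_Icc] at hx' hy'
      exact Pool.Agent.Q26.IX.it_inj _ x y hx'.1.1 hy'.1.1 hxy)
  refine ⟨S, g1, g2, g3, fun a N' hN' => ?_⟩
  have e1 : Pool.Agent.Q26.IX.prm (indices X I a) (fun _ : Fin s => -1) (fun (i : Fin s) x => iPrime (a i) x) N' = primes X I a N' := by
    unfold Pool.Agent.Q26.IX.prm primes Pool.Agent.Q26.IX.IsP
    apply congrArg card
    ext x
    simp only [mem_filter]
    simp [neg_add_eq_sub]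
  have e2 : Pool.Agent.Q26.IX.rgh (indices X I a) z (fun _ : Fin s => -1) (fun (i : Fin s) x => iPrime (a i) x) N' = rough X I a z N' := by
    unfold Pool.Agent.Q26.IX.rgh rough Pool.Agent.Q26.IX.IsR Rough
    apply congrArg card
    ext x
    simp only [mem_filter]
    simp [neg_add_eq_sub]
  by_cases ha : a ∈ Fintype.piFinset fun _ : Fin s => range (Nat.log 2 X + 1)
  · have h3 := g4 a ha N' hN'
    rw [e1, e2] at h3
    exact h3
  · -- no index at all
    have hem : indices X I a = ∅ := by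
      unfold indices
      rw [filter_eq_empty_iff]
      rintro x hx ⟨-, hall⟩
      apply ha
      rw [Fintype.mem_piFinset]
      intro i
      rw [mem_range]
      have h4 : 2 ^ a i + 1 ≤ iPrime (a i) x := Pool.Agent.Q26.IX.it_ge (a i) x
      have h5 := hall i
      have h6 : 2 ^ a i ≤ X := le_trans (Nat.le_succ _) (h4.trans h5)
      have h7 := Nat.le_log_of_pow_le (by norm_num : 1 < 2) h6
      exact Nat.lt_succ_of_le h7
    have e3 : primes X I a N' = 0 := by unfold primes; rw [hem, filter_empty, card_empty]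
    have e4 : rough X I a z N' = 0 := by unfold rough; rw [hem, filter_empty, card_empty]
    unfold Formula
    rw [e3, e4]
    simp only [Nat.cast_zero, zero_div, sub_zero, abs_zero, mul_zero, zero_add]
    exact div_nonneg (Nat.cast_nonneg _) (pow_nonneg (Real.log_natCast_nonneg _) _)

end Pool.Agent.Results.MP_778b46_nt.AllTypesAfterCorrection
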