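import Pool.Agent.Q234.Idx

/-!
# Sums of an `a`-prime with an ARBITRARILY restricted index and an almost prime

Let `ε > 0`. For all large `X`, all `a` with `(a + 1) log log X ≤ η log X` and EVERY set `I` of indices `x` with
`ᵃp_x ≤ X` and `|I| ≥ X ^ (1 - η)` the following holds: for all integers `N` in `(X, 2 X]` with at most `C X / (|I| log X)`
exceptions at least `c |I|` of the `x` in `I` are such that `N - ᵃp_x = m s`, where all prime factors of `m` are `< X ^ ε` and
`s` has at most two prime factors, which are `> X ^ (1 / 7)`. If `I` contains at least the proportion `δ` of all these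
indices, there are at most `C (K log X) ^ a / δ` exceptions.

Proof: the theorem on sparse sets of primes of the starting library (`Pool.Agent.W23.SG.sparse_sets`) and the lower bound,
uniform in `a`, of the number of the `a`-primes (`Pool.Agent.Y886.UT.dens_exp`).
-/

set_option autoImplicit false

open Finset Filter Topology

namespace Pool.Agent.Results.MP_778b46_nt.ArbitraryIndices

/-- the `x`-th prime, for `x ≥ 1` -/
noncomputable def pr (x : ℕ) : ℕ := Nat.nth Nat.Prime (x - 1)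

/-- the `x`-th `a`-prime, for `x ≥ 1`: the `(a + 1)`-fold iterate of `pr` -/
noncomputable def iPrime (a x : ℕ) : ℕ := pr^[a + 1] x

open Classical in
/-- the indices `x ≥ 1` of the `a`-primes up to `X` -/
noncomputable def indices (a X : ℕ) : Finset ℕ := (Icc 1 X).filter (fun x => iPrime a x ≤ X)

/-- `N = p + m s`, where all prime factors of `m` are `< X ^ ε` and `s` has at most two prime factors (counted with
multiplicity), all of them `> X ^ (1 / 7)` -/
def Represents (ε : ℝ) (X N p : ℕ) : Prop :=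
  ∃ m s : ℕ, 0 < m ∧ 0 < s ∧ p + m * s = N ∧
    (∀ l : ℕ, l.Prime → l ∣ m → (l : ℝ) < (X : ℝ) ^ ε) ∧
    s.primeFactorsList.length ≤ 2 ∧ ∀ q ∈ s.primeFactors, (X : ℝ) ^ (1 / 7 : ℝ) < q

/-- the `N` in `(X, 2 X]` such that `N = ᵃp_x + m s` for fewer than `c |I|` elements `x` of `I` -/
def exceptional (ε c : ℝ) (a X : ℕ) (I : Finset ℕ) : Set ℕ :=
  {N : ℕ | X < N ∧ N ≤ 2 * X ∧ (Set.ncard {x : ℕ | x ∈ I ∧ Represents ε X N (iPrime a x)} : ℝ) < c * I.card}

lemma pr_prime (x : ℕ) : (pr x).Prime := Nat.prime_nth_prime _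

lemma pr_gt {x : ℕ} (hx : 1 ≤ x) : x ≤ pr x ∧ 1 ≤ pr x := by
  have h : x - 1 + 2 ≤ Nat.nth Nat.Prime (x - 1) := Nat.add_two_le_nth_prime _
  unfold pr
  omega

lemma iPrime_ge (a x : ℕ) (hx : 1 ≤ x) : x ≤ iPrime a x ∧ 1 ≤ pr^[a] x ∧ x ≤ pr^[a] x := by
  have h : ∀ b : ℕ, x ≤ pr^[b] x := by
    intro b
    induction b with
    | zero => exact le_rfl
    | succ b ih =>
      rw [Function.iterate_succ_apply']
      exact ih.trans (pr_gt (hx.trans ih)).1
  exact ⟨h (a + 1), hx.trans (h a), h a⟩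

lemma iPrime_prime (a x : ℕ) : (iPrime a x).Prime := by
  unfold iPrime
  rw [Function.iterate_succ_apply']
  exact pr_prime _

lemma pr_injOn {x y : ℕ} (hx : 1 ≤ x) (hy : 1 ≤ y) (h : pr x = pr y) : x = y := by
  unfold pr at h
  have h1 := (Nat.nth_strictMono Nat.infinite_setOf_prime).injective h
  omega

lemma iter_inj (b : ℕ) : ∀ x y : ℕ, 1 ≤ x → 1 ≤ y → pr^[b] x = pr^[b] y → x = y := by
  induction b with
  | zero => intro x y _ _ h; exact h
  | succ b ih =>
    intro x y hx hy h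
    rw [Function.iterate_succ_apply, Function.iterate_succ_apply] at h
    exact pr_injOn hx hy (ih _ _ (pr_gt hx).2 (pr_gt hy).2 h)

lemma card_indices {a X : ℕ} {S : Finset ℕ} (h1 : S ⊆ Icc 1 X) (h2 : ∀ p ∈ S, Pool.Agent.H197R2.PG.PI a p) :
    S.card ≤ (indices a X).card := by
  classical
  have hS : S ⊆ (indices a X).image (iPrime a) := by
    intro p hp
    obtain ⟨u, hu, hu2⟩ := Pool.Agent.TH665.GP.exists_index (h2 p hp)
    have hu1 : 1 ≤ u := hu
    have hu3 : iPrime a u = p := hu2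
    have hpX := (mem_Icc.1 (h1 hp)).2
    rw [mem_image]
    refine ⟨u, ?_, hu3⟩
    unfold indices
    rw [mem_filter, mem_Icc]
    exact ⟨⟨hu1, ((iPrime_ge a u hu1).1.trans hu3.le).trans hpX⟩, hu3.le.trans hpX⟩
  exact (card_le_card hS).trans card_image_le

/-- **Sums of an `a`-prime with an arbitrarily restricted index and an almost prime.** For every `ε > 0` there are positive
`c`, `C`, `K`, `η` such that: (1) for all `X ≥ 2`, all `a` and EVERY set `I` of indices `x ≥ 1` with `ᵃp_x ≤ X` and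
`|I| ≥ X ^ (1 - η)` at most `C X / (|I| log X)` of the `N` in `(X, 2 X]` are exceptional; (2) for all large `X` and all `a`
with `(a + 1) log log X ≤ η log X` there are at least `X / (K log X) ^ (a + 1)` indices of `a`-primes up to `X`, and for every
`δ` with `X ^ (- η) ≤ δ ≤ 1` and every set `I` of at least the proportion `δ` of these indices at most
`C (K log X) ^ a / δ` of the `N` in `(X, 2 X]` are exceptional. -/
theorem result (ε : ℝ) (hε : 0 < ε) : ∃ c C K η : ℝ, 0 < c ∧ 0 < C ∧ 0 < K ∧ 0 < η ∧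
    (∀ X : ℕ, 2 ≤ X → ∀ (a : ℕ) (I : Finset ℕ), I ⊆ indices a X → (X : ℝ) ^ (1 - η) ≤ I.card →
      ((exceptional ε c a X I).ncard : ℝ) ≤ C * (X / (I.card * Real.log X))) ∧
    ∀ᶠ X : ℕ in atTop, ∀ a : ℕ, ((a : ℝ) + 1) * Real.log (Real.log X) ≤ η * Real.log X →
      (X : ℝ) / (K * Real.log X) ^ (a + 1) ≤ (indices a X).card ∧
      ∀ (δ : ℝ) (I : Finset ℕ), (X : ℝ) ^ (-η) ≤ δ → δ ≤ 1 → I ⊆ indices a X → δ * (indices a X).card ≤ I.card →
        ((exceptional ε c a X I).ncard : ℝ) ≤ C * (K * Real.log X) ^ a / δ := by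
  classical
  obtain ⟨c, C, η, hc, hC, hη, h⟩ := Pool.Agent.Q234.Idx.sets ε hε
  obtain ⟨K, hK, hmany⟩ := Pool.Agent.Q234.Idx.many (η / 2) (by positivity)
  obtain ⟨η₁, hη₁⟩ : ∃ η₁, η₁ = min (η / 2) 1 / 4 := ⟨_, rfl⟩
  have hη10 : 0 < η₁ := by
    rw [hη₁]
    have : 0 < min (η / 2) 1 := lt_min (by positivity) one_pos
    positivity
  have hη1a : η₁ ≤ η / 2 := by
    rw [hη₁]
    have : min (η / 2) 1 ≤ η / 2 := min_le_left _ _
    linarith
  rw [← hη₁] at hmany
  have key : ∀ (a X : ℕ) (I : Finset ℕ), ((exceptional ε c a X I).ncard : ℝ) ≤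
      (Pool.Agent.Q234.Idx.exceptional ε c (iPrime a) I X).card := by
    intro a X I
    have hsub : exceptional ε c a X I ⊆ (Pool.Agent.Q234.Idx.exceptional ε c (iPrime a) I X : Set ℕ) := by
      rintro N ⟨h1, h2, h3⟩
      rw [mem_coe]
      unfold Pool.Agent.Q234.Idx.exceptional
      rw [mem_filter, mem_Ioc]
      refine ⟨⟨h1, h2⟩, ?_⟩
      have e : {x : ℕ | x ∈ I ∧ Represents ε X N (iPrime a x)} =
          ((I.filter (fun x => Pool.Agent.Q234.Idx.Represents ε X N (iPrime a x)) : Finset ℕ) : Set ℕ) := by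
        ext i
        rw [mem_coe, mem_filter]
        exact Iff.rfl
      rw [e, Set.ncard_coe_finset] at h3
      exact h3
    have := Set.ncard_le_ncard hsub (finite_toSet _)
    rw [Set.ncard_coe_finset] at this
    exact_mod_cast this
  have hfirst : ∀ X : ℕ, 2 ≤ X → ∀ (a : ℕ) (I : Finset ℕ), I ⊆ indices a X → (X : ℝ) ^ (1 - η) ≤ I.card →
      ((exceptional ε c a X I).ncard : ℝ) ≤ C * (X / (I.card * Real.log X)) := by
    intro X hX a I hI hcard
    refine (key a X I).trans (h (iPrime a) X hX I (fun x hx => ?_) (fun x hx y hy hxy => ?_) hcard)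
    · have h1 := hI hx
      unfold indices at h1
      rw [mem_filter] at h1
      exact ⟨iPrime_prime a x, h1.2⟩
    · have h1 := hI (mem_coe.1 hx)
      have h2 := hI (mem_coe.1 hy)
      unfold indices at h1 h2
      rw [mem_filter, mem_Icc] at h1 h2
      exact iter_inj (a + 1) x y h1.1.1 h2.1.1 hxy
  have hη1η : (X : ℕ) → 2 ≤ X → (X : ℝ) ^ (1 - η) ≤ (X : ℝ) ^ (1 - η₁) := by
    intro X hX
    exact Real.rpow_le_rpow_of_exponent_le (by exact_mod_cast (by omega : 1 ≤ X)) (by linarith)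
  refine ⟨c, C * K, K, η₁, hc, by positivity, by linarith, hη10, ?_, ?_⟩
  · intro X hX a I hI hcard
    refine (hfirst X hX a I hI ((hη1η X hX).trans hcard)).trans ?_
    have hl : 0 ≤ Real.log (X : ℝ) := Real.log_natCast_nonneg X
    apply mul_le_mul_of_nonneg_right _ (by positivity)
    nlinarith
  · filter_upwards [hmany, eventually_ge_atTop 3] with X h1 hX a ha
    obtain ⟨S, hS1, hS2, hS3, hS4⟩ := h1 a ha
    have hX0 : (0 : ℝ) < X := by exact_mod_cast (by omega : 0 < X)
    have hL0 : 0 < Real.log (X : ℝ) := Real.log_pos (by exact_mod_cast (by omega : 1 < X))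
    have hcard : (S.card : ℝ) ≤ (indices a X).card := by exact_mod_cast card_indices hS1 hS2
    obtain ⟨L, hL⟩ : ∃ L, L = Real.log (X : ℝ) := ⟨_, rfl⟩
    rw [← hL] at hS3 hL0 ⊢
    obtain ⟨n, hn⟩ : ∃ n : ℝ, n = (indices a X).card := ⟨_, rfl⟩
    have hn1 : (X : ℝ) ≤ (K * L) ^ (a + 1) * n := by
      rw [hn]
      refine hS3.trans ?_
      exact mul_le_mul_of_nonneg_left hcard (by positivity)
    have hn2 : (X : ℝ) ^ (1 - η / 2) ≤ n := by
      rw [hn]
      have : 0 ≤ (X : ℝ) ^ (1 - η / 2) := Real.rpow_nonneg hX0.le _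
      linarith
    have hn0 : 0 < n := (Real.rpow_pos_of_pos hX0 _).trans_le hn2
    refine ⟨?_, ?_⟩
    · rw [← hn, div_le_iff₀ (by positivity), mul_comm]
      exact hn1
    · intro δ I hδ1 hδ2 hI hIδ
      rw [← hn] at hIδ
      have hδ0 : 0 < δ := (Real.rpow_pos_of_pos hX0 _).trans_le hδ1
      have hIc : (X : ℝ) ^ (1 - η) ≤ I.card := by
        refine le_trans ?_ hIδ
        calc (X : ℝ) ^ (1 - η) ≤ (X : ℝ) ^ (-η₁ + (1 - η / 2)) :=
              Real.rpow_le_rpow_of_exponent_le (by exact_mod_cast (by omega : 1 ≤ X)) (by linarith)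
          _ = (X : ℝ) ^ (-η₁) * (X : ℝ) ^ (1 - η / 2) := Real.rpow_add hX0 _ _
          _ ≤ δ * n := mul_le_mul hδ1 hn2 (Real.rpow_nonneg hX0.le _) hδ0.le
      refine (hfirst X (by omega) a I hI hIc).trans ?_
      rw [← hL]
      have hI0 : (0 : ℝ) < I.card := (mul_pos hδ0 hn0).trans_le hIδ
      rw [le_div_iff₀ hδ0, mul_assoc, mul_assoc]
      apply mul_le_mul_of_nonneg_left _ hC.le
      rw [div_mul_eq_mul_div, div_le_iff₀ (by positivity)]
      calc (X : ℝ) * δ ≤ ((K * L) ^ (a + 1) * n) * δ := mul_le_mul_of_nonneg_right hn1 hδ0.le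
        _ = (K * L) ^ (a + 1) * (δ * n) := by ring
        _ ≤ (K * L) ^ (a + 1) * I.card := mul_le_mul_of_nonneg_left hIδ (by positivity)
        _ = K * (K * L) ^ a * (I.card * L) := by ring

end Pool.Agent.Results.MP_778b46_nt.ArbitraryIndices
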