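import Pool.Agent.Q234.Idx
import Pool.Agent.Q331.Dyad
import Pool.Agent.Y854.GM.Win

/-!
# MP_778b46_nt: EVERY number in long windows is the sum of an `a`-prime with a restricted index and an almost prime

Let `𝓧` be an arbitrary set of positive integers such that at least `X ^ (1 - σ - o(1))` of the `x` in `𝓧` have
`ᵃp_x ≤ X`, where `σ` is smaller than a constant depending on `ε` (for instance the set of all positive integers, with
`σ = 0`; or the set of all squarefree integers, of all primes, ...). Let `v ≥ 1` be a sequence with exponent of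
convergence at most `τ` (for `v n = n ^ b` this is `1 / b`, for `v n = b ^ n` or `n!` it is `0`) and `θ < 1`. For all
`α > 0` outside a set of Hausdorff dimension at most `(σ + τ) / (1 - θ)` and all but finitely many `n` EVERY integer `N`
with `|N - α v n| ≤ (v n) ^ θ` is of the form `N = ᵃp_x + m s` for a positive proportion of the `x` in `𝓧`, where all
prime factors of `m` are `< N ^ ε` and `s` has at most two prime factors, which are `> N ^ (1 / 8)`.

From Mathlib: `Nat.nth Nat.Prime i`: the prime number with `i` smaller primes; `dimH`: the Hausdorff dimension;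
`s.primeFactorsList`: the list of the prime factors with multiplicity. The bound for the number of the exceptional `N` is
from `Pool.Agent.Q234.Idx` (helper234), which rests on the starting files (`Pool.Agent.W23.SG.sparse_sets`); the theorem
on the windows is from the starting files (`Pool.Agent.Y854.GM.win_nat`).
-/

set_option autoImplicit false

open Finset Filter Topology

namespace Pool.Agent.Results.MP_778b46_nt.EveryNumberInWindows

/-- the `x`-th prime, for `x ≥ 1` -/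
noncomputable def pr (x : ℕ) : ℕ := Nat.nth Nat.Prime (x - 1)

/-- the `x`-th `a`-prime, for `x ≥ 1`: the `(a + 1)`-fold iterate of `pr` -/
noncomputable def iPrime (a x : ℕ) : ℕ := pr^[a + 1] x

open Classical in
/-- the `x ≥ 1` in `𝓧` for which the `x`-th `a`-prime is at most `X` -/
noncomputable def indices (𝓧 : Set ℕ) (a X : ℕ) : Finset ℕ := (Icc 1 X).filter (fun x => x ∈ 𝓧 ∧ iPrime a x ≤ X)

/-- `N = p + m s`, where all prime factors of `m` are `< N ^ ε` and `s` has at most two prime factors (counted with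
multiplicity), all of them `> N ^ (1 / 8)` -/
def Represents (ε : ℝ) (N p : ℕ) : Prop :=
  ∃ m s : ℕ, 0 < m ∧ 0 < s ∧ p + m * s = N ∧
    (∀ l : ℕ, l.Prime → l ∣ m → (l : ℝ) < (N : ℝ) ^ ε) ∧
    s.primeFactorsList.length ≤ 2 ∧ ∀ q ∈ s.primeFactors, (N : ℝ) ^ (1 / 8 : ℝ) < q

open Classical in
/-- The number of the `x` in `𝓧` with `N = ᵃp_x + m s` as above is at least the proportion `c` of the number of the
`x` in `𝓧` with `ᵃp_x ≤ N / 2`. -/
def Good (ε c : ℝ) (𝓧 : Set ℕ) (a N : ℕ) : Prop :=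
  c * (indices 𝓧 a (N / 2)).card ≤ ((indices 𝓧 a N).filter (fun x => Represents ε N (iPrime a x))).card

/-- the exponent of convergence of the sequence `v` is at most `τ` -/
def ExponentOfConvergence (v : ℕ → ℝ) (τ : ℝ) : Prop := ∀ t : ℝ, τ < t → Summable (fun n : ℕ => (v n) ^ (-t))

lemma pr_prime (x : ℕ) : (pr x).Prime := Nat.prime_nth_prime _

lemma pr_gt {x : ℕ} (hx : 1 ≤ x) : x ≤ pr x ∧ 1 ≤ pr x := by
  have h : x - 1 + 2 ≤ Nat.nth Nat.Prime (x - 1) := Nat.add_two_le_nth_prime _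
  unfold pr
  omega

lemma iPrime_prime (a x : ℕ) : (iPrime a x).Prime := by
  unfold iPrime
  rw [Function.iterate_succ_apply']
  exact pr_prime _

lemma pr_injOn {x y : ℕ} (hx : 1 ≤ x) (hy : 1 ≤ y) (h : pr x = pr y) : x = y := by
  unfold pr at h
  have h1 := (Nat.nth_strictMono Nat.infinite_setOf_prime).injective h
  omega

lemma iter_inj (b : ℕ) : ∀ x y : ℕ, 1 ≤ x → 1 ≤ y → pr^[b] x = pr^[b] y → x = y := by
  induction b with
  | zero => intro x y _ _ h; exact h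
  | succ b ih =>
    intro x y hx hy h
    rw [Function.iterate_succ_apply, Function.iterate_succ_apply] at h
    exact pr_injOn hx hy (ih _ _ (pr_gt hx).2 (pr_gt hy).2 h)

lemma mono {𝓧 : Set ℕ} {a X Y : ℕ} (h : X ≤ Y) : indices 𝓧 a X ⊆ indices 𝓧 a Y := by
  classical
  intro x hx
  unfold indices at hx ⊢
  rw [mem_filter, mem_Icc] at hx ⊢
  exact ⟨⟨hx.1.1, hx.1.2.trans h⟩, hx.2.1, hx.2.2.trans h⟩

/-- at the scale `X`: the exceptional numbers in `(X, 2 X]` -/
lemma scale (ε : ℝ) (hε : 0 < ε) : ∃ c C η : ℝ, 0 < c ∧ 0 < η ∧ ∀ (𝓧 : Set ℕ) (a X : ℕ) (σ : ℝ), 256 ≤ X → σ ≤ η →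
    (X : ℝ) ^ (1 - σ) ≤ (indices 𝓧 a X).card →
    (Set.ncard {N : ℕ | X < N ∧ N ≤ 2 * X ∧ ¬ Good ε c 𝓧 a N} : ℝ) ≤ C * (X : ℝ) ^ σ := by
  classical
  obtain ⟨c, C, η, hc, hC, hη, h⟩ := Pool.Agent.Q234.Idx.sets ε hε
  refine ⟨c, C, η, hc, hη, fun 𝓧 a X σ hX hσ hcard => ?_⟩
  have hXr : (256 : ℝ) ≤ X := by exact_mod_cast hX
  have hX0 : (0 : ℝ) < X := by linarith
  have hinj : Set.InjOn (iPrime a) ((indices 𝓧 a X : Finset ℕ) : Set ℕ) := by
    intro x hx y hy hxy
    have h1 := mem_coe.1 hx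
    have h2 := mem_coe.1 hy
    unfold indices at h1 h2
    rw [mem_filter, mem_Icc] at h1 h2
    exact iter_inj (a + 1) x y h1.1.1 h2.1.1 hxy
  have h1 := h (iPrime a) X (by omega) (indices 𝓧 a X) (fun x hx => by
    unfold indices at hx
    rw [mem_filter] at hx
    exact ⟨iPrime_prime a x, hx.2.2⟩) hinj
    (le_trans (Real.rpow_le_rpow_of_exponent_le (by linarith) (by linarith)) hcard)
  have hsub : {N : ℕ | X < N ∧ N ≤ 2 * X ∧ ¬ Good ε c 𝓧 a N} ⊆
      (Pool.Agent.Q234.Idx.exceptional ε c (iPrime a) (indices 𝓧 a X) X : Set ℕ) := by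
    rintro N ⟨h4, h5, h6⟩
    rw [mem_coe]
    unfold Pool.Agent.Q234.Idx.exceptional
    rw [mem_filter, mem_Ioc]
    refine ⟨⟨h4, h5⟩, ?_⟩
    by_contra h7
    rw [not_lt] at h7
    apply h6
    have hN0 : (0 : ℝ) < N := by exact_mod_cast (by omega : 0 < N)
    have hXN : (X : ℝ) ≤ N := by exact_mod_cast h4.le
    have h9 : c * ((indices 𝓧 a (N / 2)).card : ℝ) ≤ c * ((indices 𝓧 a X).card : ℝ) := by
      apply mul_le_mul_of_nonneg_left _ hc.le
      exact_mod_cast card_le_card (mono (by omega))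
    refine h9.trans (h7.trans ?_)
    unfold Pool.Agent.Q234.Idx.reps
    apply Nat.cast_le.2
    apply card_le_card
    intro p hp
    rw [mem_filter] at hp ⊢
    obtain ⟨hp1, m, s, hm, hs, hpm, hm2, hs2, hs3⟩ := hp
    refine ⟨mono h4.le hp1, m, s, hm, hs, hpm, fun l hl hlm => (hm2 l hl hlm).trans_le ?_, hs2, fun q hq => ?_⟩
    · exact Real.rpow_le_rpow hX0.le hXN hε.le
    · refine lt_of_le_of_lt ?_ (hs3 q hq)
      have h10 : (N : ℝ) ≤ 2 * X := by exact_mod_cast h5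
      calc (N : ℝ) ^ (1 / 8 : ℝ) ≤ (2 * X : ℝ) ^ (1 / 8 : ℝ) := Real.rpow_le_rpow hN0.le h10 (by norm_num)
        _ = (2 : ℝ) ^ (1 / 8 : ℝ) * (X : ℝ) ^ (1 / 8 : ℝ) := Real.mul_rpow (by norm_num) hX0.le
        _ ≤ (X : ℝ) ^ (1 / 56 : ℝ) * (X : ℝ) ^ (1 / 8 : ℝ) := by
            apply mul_le_mul_of_nonneg_right _ (by positivity)
            calc (2 : ℝ) ^ (1 / 8 : ℝ) = ((2 : ℝ) ^ (7 : ℝ)) ^ (1 / 56 : ℝ) := by
                  rw [← Real.rpow_mul (by norm_num)]
                  norm_num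
              _ ≤ (X : ℝ) ^ (1 / 56 : ℝ) := by
                  apply Real.rpow_le_rpow (by positivity) _ (by norm_num)
                  have : (2 : ℝ) ^ (7 : ℝ) = 128 := by norm_num
                  linarith
        _ = (X : ℝ) ^ (1 / 7 : ℝ) := by
            rw [← Real.rpow_add hX0]
            norm_num
  have h2 : (Set.ncard {N : ℕ | X < N ∧ N ≤ 2 * X ∧ ¬ Good ε c 𝓧 a N} : ℝ) ≤
      (Pool.Agent.Q234.Idx.exceptional ε c (iPrime a) (indices 𝓧 a X) X).card := by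
    have := Set.ncard_le_ncard hsub (finite_toSet _)
    rw [Set.ncard_coe_finset] at this
    exact_mod_cast this
  refine h2.trans (h1.trans ?_)
  have hlog : 1 ≤ Real.log (X : ℝ) := by
    rw [Real.le_log_iff_exp_le hX0]
    have := Real.exp_one_lt_d9
    linarith
  have hI0 : 0 < (X : ℝ) ^ (1 - σ) := by positivity
  have hI1 : (0 : ℝ) < (indices 𝓧 a X).card := lt_of_lt_of_le hI0 hcard
  apply mul_le_mul_of_nonneg_left _ hC.le
  rw [div_le_iff₀ (by positivity)]
  calc (X : ℝ) = (X : ℝ) ^ σ * (X : ℝ) ^ (1 - σ) := by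
        rw [← Real.rpow_add hX0]
        simp
    _ ≤ (X : ℝ) ^ σ * ((indices 𝓧 a X).card * Real.log X) := by
        apply mul_le_mul_of_nonneg_left _ (by positivity)
        nlinarith

open Classical in
/-- Let `ε > 0`. There are `c, η > 0` with the following property. Let `𝓧` be a set of integers, `a ≥ 0` and
`0 ≤ σ < η`, such that for every `σ' > σ` and all large `X` at least `X ^ (1 - σ')` elements `x ≥ 1` of `𝓧` have
`ᵃp_x ≤ X`. Let `v` be a sequence of real numbers `≥ 1` with exponent of convergence at most `τ` and `θ < 1`. There is a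
set `E` of real numbers of Hausdorff dimension at most `(σ + τ) / (1 - θ)` such that for all `α > 0` outside `E` and all
but finitely many `n` EVERY natural number `N` with `|N - α v n| ≤ (v n) ^ θ` is such that the number of the `x` in `𝓧`
with `N = ᵃp_x + m s`, where all prime factors of `m` are `< N ^ ε` and `s` has at most two prime factors, all
`> N ^ (1 / 8)`, is at least the proportion `c` of the number of the `x` in `𝓧` with `ᵃp_x ≤ N / 2`. -/
theorem result (ε : ℝ) (hε : 0 < ε) : ∃ c η : ℝ, 0 < c ∧ 0 < η ∧ ∀ (𝓧 : Set ℕ) (a : ℕ) (σ : ℝ), 0 ≤ σ → σ < η →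
    (∀ σ' : ℝ, σ < σ' → ∀ᶠ X : ℕ in atTop, (X : ℝ) ^ (1 - σ') ≤ (indices 𝓧 a X).card) →
    ∀ (v : ℕ → ℝ) (τ θ : ℝ), (∀ n, 1 ≤ v n) → 0 ≤ τ → ExponentOfConvergence v τ → θ < 1 →
    ∃ E : Set ℝ, dimH E ≤ ENNReal.ofReal ((σ + τ) / (1 - θ)) ∧
      ∀ α : ℝ, 0 < α → α ∉ E → ∃ n0 : ℕ, ∀ n : ℕ, n0 ≤ n → ∀ N : ℕ, |(N : ℝ) - α * v n| ≤ (v n) ^ θ →
        Good ε c 𝓧 a N := by
  obtain ⟨c, C, η, hc, hη, hscale⟩ := scale ε hε
  refine ⟨c, η, hc, hη, fun 𝓧 a σ hσ hση hI v τ θ hv hτ hvτ hθ => ?_⟩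
  obtain ⟨E, hE, h⟩ := Pool.Agent.Y854.GM.win_nat {N : ℕ | ¬ Good ε c 𝓧 a N} (s := σ) (θ := θ) hv hτ hvτ hσ hθ (by
    intro ε' hε'
    obtain ⟨σ', hσ'⟩ : ∃ σ' : ℝ, σ' = min (σ + ε') η := ⟨_, rfl⟩
    have h1 : σ < σ' := by rw [hσ']; exact lt_min (by linarith) hση
    have h2 : σ' ≤ σ + ε' := by rw [hσ']; exact min_le_left _ _
    have h3 : σ' ≤ η := by rw [hσ']; exact min_le_right _ _
    obtain ⟨X₀, hX₀⟩ := ((hI σ' h1).and (eventually_ge_atTop 256)).exists_forall_of_atTop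
    obtain ⟨C', hC'⟩ := Pool.Agent.Q331.Dyad.cum {N : ℕ | ¬ Good ε c 𝓧 a N} σ' (by linarith) C X₀ (by
      intro j hj
      obtain ⟨h4, h5⟩ := hX₀ (2 ^ j) (hj.trans (Nat.lt_two_pow_self).le)
      have h6 := hscale 𝓧 a (2 ^ j) σ' h5 h3 h4
      have e : {N : ℕ | 2 ^ j < N ∧ N ≤ 2 * 2 ^ j ∧ ¬ Good ε c 𝓧 a N} =
          (((Ioc (2 ^ j) (2 * 2 ^ j)).filter (fun t => t ∈ {N : ℕ | ¬ Good ε c 𝓧 a N}) : Finset ℕ) : Set ℕ) := by
        ext N
        rw [mem_coe, mem_filter, mem_Ioc]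
        exact ⟨fun h => ⟨⟨h.1, h.2.1⟩, h.2.2⟩, fun h => ⟨h.1.1, h.1.2, h.2⟩⟩
      rw [e, Set.ncard_coe_finset] at h6
      refine le_trans (le_of_eq (by congr!)) (h6.trans (le_of_eq ?_))
      push_cast
      rfl)
    refine ⟨|C'|, fun X hX => (hC' X hX).trans ?_⟩
    have hX1 : (1 : ℝ) ≤ X := by exact_mod_cast hX
    calc C' * (X : ℝ) ^ σ' ≤ |C'| * (X : ℝ) ^ σ' := mul_le_mul_of_nonneg_right (le_abs_self _) (by positivity)
      _ ≤ |C'| * (X : ℝ) ^ (σ + ε') :=
        mul_le_mul_of_nonneg_left (Real.rpow_le_rpow_of_exponent_le hX1 h2) (abs_nonneg _))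
  refine ⟨E, hE, fun α hα hαE => ?_⟩
  obtain ⟨n0, hn0⟩ := h α hα hαE
  exact ⟨n0, fun n hn N hN => not_not.1 (hn0 n hn N hN).2⟩

end Pool.Agent.Results.MP_778b46_nt.EveryNumberInWindows
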