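import Mathlib
import Pool.Agent.Q55.IterP

/-!
# The least summands in the representations `2 n = ᵃp_u + ᵇp_v`

For almost all `n` of every interval of length `X`, in ALL representations `2 n = ᵃp_u + ᵇp_v` the indices satisfy
`v > c (log X) ^ (a + 1)`, `u > c (log X) ^ (b + 1)`, and the summands satisfy
`ᵇp_v > c (log X) ^ (a + 1) (log log X) ^ (b + 1)`, `ᵃp_u > c (log X) ^ (b + 1) (log log X) ^ (a + 1)`.
-/

set_option autoImplicit false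

open Finset Filter

namespace Pool.Agent.Results.MP_778b46_nt.LeastSummands

/-- the `x`-th prime, `pr 1 = 2` -/
noncomputable def pr (x : ℕ) : ℕ := Nat.nth Nat.Prime (x - 1)

/-- in all representations of `2 n` as the sum of the `u`-th `a`-prime and the `v`-th `b`-prime the indices and the
summands are large -/
def Large (a b : ℕ) (c X : ℝ) (n : ℕ) : Prop :=
  ∀ u v : ℕ, 0 < u → 0 < v → pr^[a + 1] u + pr^[b + 1] v = 2 * n →
    c * Real.log X ^ (b + 1) < u ∧ c * Real.log X ^ (a + 1) < v ∧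
    c * (Real.log X ^ (b + 1) * Real.log (Real.log X) ^ (a + 1)) < (pr^[a + 1] u : ℕ) ∧
    c * (Real.log X ^ (a + 1) * Real.log (Real.log X) ^ (b + 1)) < (pr^[b + 1] v : ℕ)

/-- from the index to the summand -/
theorem size_of (b : ℕ) (κ : ℝ) (hκ : 0 < κ) (a : ℕ) : ∃ c : ℝ, 0 < c ∧ ∃ X₀ : ℕ, ∀ X : ℕ, X₀ ≤ X →
    ∀ v : ℕ, 0 < v → κ * Real.log X ^ (a + 1) < v →
      c * (Real.log X ^ (a + 1) * Real.log (Real.log X) ^ (b + 1)) < (Pool.Agent.Q55.IterP.pr^[b + 1] v : ℕ) := by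
  obtain ⟨c₀, hc₀, h⟩ := Pool.Agent.Q55.IterP.size b
  have hlogt : Tendsto (fun X : ℕ => Real.log (X : ℝ)) atTop atTop :=
    Real.tendsto_log_atTop.comp tendsto_natCast_atTop_atTop
  obtain ⟨X₁, hX₁⟩ := eventually_atTop.1 ((hlogt.eventually_ge_atTop (1 / κ ^ 2)).and
    ((hlogt.eventually_ge_atTop 3).and (hlogt.eventually_ge_atTop (2 / κ))))
  refine ⟨c₀ * κ * (1 / 2) ^ (b + 1) / 2, by positivity, X₁, ?_⟩
  intro X hX v hv0 hv
  obtain ⟨h1, h2, h3⟩ := hX₁ X hX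
  obtain ⟨L, hL⟩ : ∃ L : ℝ, L = Real.log X := ⟨_, rfl⟩
  rw [← hL] at h1 h2 h3 hv ⊢
  have hL0 : 0 < L := by linarith
  have hLL : L ≤ L ^ (a + 1) := by
    calc L = L ^ 1 := (pow_one L).symm
      _ ≤ L ^ (a + 1) := pow_le_pow_right₀ (by linarith) (by omega)
  have hv2 : 2 ≤ v := by
    have h4 : (2 : ℝ) ≤ κ * L ^ (a + 1) := by
      rw [div_le_iff₀ hκ] at h3
      nlinarith
    have h5 : (2 : ℝ) < v := by linarith
    have h6 : 2 < v := by exact_mod_cast h5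
    omega
  have h4 := h v hv2
  have hsq : √L ≤ v := by
    have h5 : √L ≤ κ * L := by
      have h6 : 1 / κ ≤ √L := by
        apply Real.le_sqrt_of_sq_le
        rw [one_div_pow]
        exact h1
      have h7 : 1 ≤ κ * √L := by
        rw [div_le_iff₀ hκ] at h6
        linarith
      calc √L = 1 * √L := (one_mul _).symm
        _ ≤ (κ * √L) * √L := mul_le_mul_of_nonneg_right h7 (Real.sqrt_nonneg _)
        _ = κ * L := by rw [mul_assoc, Real.mul_self_sqrt hL0.le]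
    have h6 : κ * L ≤ κ * L ^ (a + 1) := by gcongr
    linarith
  have hlv : Real.log L / 2 ≤ Real.log v := by
    have h5 : Real.log (√L) ≤ Real.log v := Real.log_le_log (Real.sqrt_pos.2 hL0) hsq
    rwa [Real.log_sqrt hL0.le] at h5
  have hll : 0 < Real.log L := Real.log_pos (by linarith)
  have hpos : 0 < c₀ * κ * (1 / 2) ^ (b + 1) * (L ^ (a + 1) * Real.log L ^ (b + 1)) := by positivity
  have h5 : c₀ * κ * (1 / 2) ^ (b + 1) * (L ^ (a + 1) * Real.log L ^ (b + 1)) ≤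
      (Pool.Agent.Q55.IterP.pr^[b + 1] v : ℕ) := by
    refine le_trans ?_ h4
    have h6 : (Real.log L / 2) ^ (b + 1) ≤ Real.log v ^ (b + 1) := by gcongr
    calc c₀ * κ * (1 / 2) ^ (b + 1) * (L ^ (a + 1) * Real.log L ^ (b + 1)) =
        c₀ * ((κ * L ^ (a + 1)) * (Real.log L / 2) ^ (b + 1)) := by
          rw [div_pow (Real.log L) 2, one_div_pow]; ring
      _ ≤ c₀ * (v * Real.log v ^ (b + 1)) := by gcongr
  linarith

/-- **Theorem.** For all `a`, `b` and every `ε > 0` there is `c > 0` such that for all large `X` and all `Y` all the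
integers `n` of the interval `(Y, Y + X]` with at most `ε X` exceptions have the property `Large a b c X n`. -/
theorem result (a b : ℕ) (ε : ℝ) (hε : 0 < ε) : ∃ c : ℝ, 0 < c ∧ ∃ X₀ : ℕ, ∀ X Y : ℕ, X₀ ≤ X →
    (Set.ncard {n : ℕ | Y < n ∧ n ≤ Y + X ∧ ¬ Large a b c X n} : ℝ) ≤ ε * X := by
  classical
  obtain ⟨C₁, hC₁, h₁⟩ := Pool.Agent.Q55.IterP.few a b
  obtain ⟨C₂, hC₂, h₂⟩ := Pool.Agent.Q55.IterP.few b a
  obtain ⟨c₁, hc₁, X₁, s₁⟩ := size_of b (ε / (2 * C₁)) (by positivity) a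
  obtain ⟨c₂, hc₂, X₂, s₂⟩ := size_of a (ε / (2 * C₂)) (by positivity) b
  obtain ⟨κ₁, hκ₁⟩ : ∃ κ : ℝ, κ = ε / (2 * C₁) := ⟨_, rfl⟩
  obtain ⟨κ₂, hκ₂⟩ : ∃ κ : ℝ, κ = ε / (2 * C₂) := ⟨_, rfl⟩
  have hκ₁0 : 0 < κ₁ := by rw [hκ₁]; positivity
  have hκ₂0 : 0 < κ₂ := by rw [hκ₂]; positivity
  rw [← hκ₁] at s₁
  rw [← hκ₂] at s₂
  refine ⟨min (min κ₁ κ₂) (min c₁ c₂), by positivity, max (max X₁ X₂) 3, ?_⟩
  intro X Y hX
  have g1 : X₁ ≤ X := ((le_max_left _ _).trans (le_max_left _ _)).trans hX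
  have g2 : X₂ ≤ X := ((le_max_right _ _).trans (le_max_left _ _)).trans hX
  have g3 : 3 ≤ X := (le_max_right _ _).trans hX
  have hXr : (3 : ℝ) ≤ X := by exact_mod_cast g3
  have hL1 : 1 < Real.log X := by
    rw [Real.lt_log_iff_exp_lt (by linarith)]
    have := Real.exp_one_lt_d9
    linarith
  obtain ⟨L, hL⟩ : ∃ L : ℝ, L = Real.log X := ⟨_, rfl⟩
  have hLL : 0 < Real.log L := Real.log_pos (by rw [hL]; exact hL1)
  have hL0 : 0 < L := by rw [hL]; linarith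
  obtain ⟨c, hc⟩ : ∃ c : ℝ, c = min (min κ₁ κ₂) (min c₁ c₂) := ⟨_, rfl⟩
  have k1 : c ≤ κ₁ := hc ▸ (min_le_left _ _).trans (min_le_left _ _)
  have k2 : c ≤ κ₂ := hc ▸ (min_le_left _ _).trans (min_le_right _ _)
  have k3 : c ≤ c₁ := hc ▸ (min_le_right _ _).trans (min_le_left _ _)
  have k4 : c ≤ c₂ := hc ▸ (min_le_right _ _).trans (min_le_right _ _)
  rw [← hc]
  obtain ⟨r₁, hr₁⟩ : ∃ r : ℕ, r = ⌊κ₁ * Real.log X ^ (a + 1)⌋₊ := ⟨_, rfl⟩
  obtain ⟨r₂, hr₂⟩ : ∃ r : ℕ, r = ⌊κ₂ * Real.log X ^ (b + 1)⌋₊ := ⟨_, rfl⟩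
  have f₁ := h₁ X Y r₁ (by omega)
  have f₂ := h₂ X Y r₂ (by omega)
  have hr₁le : (r₁ : ℝ) ≤ κ₁ * Real.log X ^ (a + 1) := hr₁ ▸ Nat.floor_le (by positivity)
  have hr₂le : (r₂ : ℝ) ≤ κ₂ * Real.log X ^ (b + 1) := hr₂ ▸ Nat.floor_le (by positivity)
  have e₁ : C₁ * r₁ * (X / Real.log X ^ (a + 1)) ≤ ε / 2 * X := by
    calc C₁ * r₁ * (X / Real.log X ^ (a + 1)) ≤ C₁ * (κ₁ * Real.log X ^ (a + 1)) * (X / Real.log X ^ (a + 1)) := by
          gcongr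
      _ = ε / 2 * X := by rw [hκ₁]; field_simp
  have e₂ : C₂ * r₂ * (X / Real.log X ^ (b + 1)) ≤ ε / 2 * X := by
    calc C₂ * r₂ * (X / Real.log X ^ (b + 1)) ≤ C₂ * (κ₂ * Real.log X ^ (b + 1)) * (X / Real.log X ^ (b + 1)) := by
          gcongr
      _ = ε / 2 * X := by rw [hκ₂]; field_simp
  obtain ⟨E₁, hE₁⟩ : ∃ E : Finset ℕ, E = (Ioc Y (Y + X)).filter (fun n => ∃ u v : ℕ, 0 < u ∧ 0 < v ∧ v ≤ r₁ ∧
      Pool.Agent.Q55.IterP.pr^[a + 1] u + Pool.Agent.Q55.IterP.pr^[b + 1] v = 2 * n) := ⟨_, rfl⟩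
  obtain ⟨E₂, hE₂⟩ : ∃ E : Finset ℕ, E = (Ioc Y (Y + X)).filter (fun n => ∃ u v : ℕ, 0 < u ∧ 0 < v ∧ v ≤ r₂ ∧
      Pool.Agent.Q55.IterP.pr^[b + 1] u + Pool.Agent.Q55.IterP.pr^[a + 1] v = 2 * n) := ⟨_, rfl⟩
  rw [← hE₁] at f₁
  rw [← hE₂] at f₂
  have hsub : {n : ℕ | Y < n ∧ n ≤ Y + X ∧ ¬ Large a b c X n} ⊆ ((E₁ ∪ E₂ : Finset ℕ) : Set ℕ) := by
    rintro n ⟨hn1, hn2, hn3⟩
    by_contra hcon
    apply hn3
    intro u v hu hv huv
    have hv1 : ¬ v ≤ r₁ := by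
      intro hv1
      apply hcon
      rw [Finset.mem_coe, mem_union, hE₁, mem_filter, mem_Ioc]
      left
      exact ⟨⟨hn1, hn2⟩, u, v, hu, hv, hv1, huv⟩
    have hu1 : ¬ u ≤ r₂ := by
      intro hu1
      apply hcon
      rw [Finset.mem_coe, mem_union, hE₂, mem_filter, mem_Ioc]
      right
      refine ⟨⟨hn1, hn2⟩, v, u, hv, hu, hu1, ?_⟩
      rw [add_comm]
      exact huv
    have hv2 : κ₁ * Real.log X ^ (a + 1) < v := (Nat.floor_lt (by positivity)).1 (by rw [← hr₁]; omega)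
    have hu2 : κ₂ * Real.log X ^ (b + 1) < u := (Nat.floor_lt (by positivity)).1 (by rw [← hr₂]; omega)
    have t1 := s₁ X g1 v hv hv2
    have t2 := s₂ X g2 u hu hu2
    refine ⟨?_, ?_, ?_, ?_⟩
    · refine lt_of_le_of_lt ?_ hu2
      gcongr
    · refine lt_of_le_of_lt ?_ hv2
      gcongr
    · refine lt_of_le_of_lt ?_ t2
      rw [← hL]
      gcongr
    · refine lt_of_le_of_lt ?_ t1
      rw [← hL]
      gcongr
  have h3 := Set.ncard_le_ncard hsub (Finset.finite_toSet _)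
  rw [Set.ncard_coe_finset] at h3
  have h4 := h3.trans (card_union_le _ _)
  have h5 : (Set.ncard {n : ℕ | Y < n ∧ n ≤ Y + X ∧ ¬ Large a b c X n} : ℝ) ≤ (E₁.card : ℝ) + E₂.card := by
    exact_mod_cast h4
  linarith

end Pool.Agent.Results.MP_778b46_nt.LeastSummands
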